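import Pool.Agent.Helper509.CK.KX

/-! The unitization of `K(X)`, `X` a Banach space with a shrinking basis, is a Calkin algebra. -/

set_option autoImplicit false

open Filter Topology

namespace Pool.Agent.Results.MP_2a83f9_an.ShrinkingBasis

open Pool.Agent.R184CA Pool.Agent.Helper509.CK

universe u

/-- The Schauder basis `b` of `X` is shrinking: its coordinate functionals are a Schauder basis of
the dual space of `X`. -/
def Shrinking {𝕜 : Type} [RCLike 𝕜] {X : Type u} [NormedAddCommGroup X] [NormedSpace 𝕜 X]
    (b : SchauderBasis 𝕜 X) : Prop :=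
  ∃ b' : SchauderBasis 𝕜 (X →L[𝕜] 𝕜), ∀ n, b' n = b.coord n

theorem result {𝕜 : Type} [RCLike 𝕜] {X : Type u} [NormedAddCommGroup X] [NormedSpace 𝕜 X]
    [CompleteSpace X] (b : SchauderBasis 𝕜 X) (hb : Shrinking b) :
    IsCalkin 𝕜 (WithLp 1 (Unitization 𝕜 (KK 𝕜 X))) := by
  obtain ⟨b', hb'⟩ := hb
  obtain ⟨C, hC⟩ := b.exists_norm_proj_le
  refine calkin_KX (fun n => b.proj n) C hC (fun m n x => b.proj_comp m n x) (fun n => ?_)
    (fun x => b.tendsto_proj x) (fun f => ?_)
  · rw [b.range_proj_eq_span]
    exact FiniteDimensional.span_of_finite 𝕜 ((Finset.finite_toSet _).image _)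
  · have h1 : ∀ n, f.comp (b.proj n) = b'.proj n f := by
      intro n
      have hcoord : ∀ i, b'.coord i f = f (b i) := by
        intro i
        have h2 := b'.tendsto_proj f
        have h3 : Tendsto (fun n => (b'.proj n f) (b i)) atTop (𝓝 (f (b i))) :=
          ((ContinuousLinearMap.apply 𝕜 𝕜 (b i)).continuous.tendsto _).comp h2
        have h4 : ∀ᶠ n in atTop, (b'.proj n f) (b i) = b'.coord i f := by
          filter_upwards [eventually_gt_atTop i] with n hn
          rw [b'.proj_apply, sum_apply, Finset.sum_eq_single i]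
          · rw [smul_apply, hb', b.ortho]
            simp
          · intro j _ hj
            rw [smul_apply, hb', b.ortho]
            simp [hj]
          · intro h; exact absurd (Finset.mem_range.2 hn) h
        exact (tendsto_nhds_unique (Tendsto.congr' h4 h3) tendsto_const_nhds).symm
      ext x
      rw [b'.proj_apply, sum_apply]
      show f (b.proj n x) = _
      rw [b.proj_apply, map_sum]
      refine Finset.sum_congr rfl fun i _ => ?_
      rw [smul_apply, hb', hcoord, map_smul, smul_eq_mul, smul_eq_mul, mul_comm]
    simp only [h1]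
    exact b'.tendsto_proj f

end Pool.Agent.Results.MP_2a83f9_an.ShrinkingBasis
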